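import Mathlib

/-!
# MP_f313b9_al (frozen S03526): reduction to (infinite Burnside engine for `p`) + (Kostrikin for `p`)

`E` is the free group of rank 2, `pw p = E^p`.  With `T` the preimage of the finite residual of `E/E^p` (finite index
by Kostrikin) the relatively free group `E/[E^p,T]` is not finitely presented (engine), but its Schur multiplier is
finitely generated: `[N,T]/[[N,T],T]` is a quotient of the exterior square of `T_ab`.
-/

namespace Pool.Agent.SCH

/-- The free group of rank two. -/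
abbrev E : Type := FreeGroup (Fin 2)

/-- The verbal subgroup `E^p`. -/
def pw (p : ℕ) : Subgroup E := Subgroup.normalClosure {x | ∃ y : E, x = y ^ p}

/-- Kostrikin's theorem (restricted Burnside problem) for two generators and exponent `p`. -/
def Stmt_Kos (p : ℕ) : Prop := ∃ B : ℕ, ∀ K : Subgroup E, K.Normal → (∀ x, x ^ p ∈ K) → K.FiniteIndex →
  K.index ≤ B

/-- What is needed from the Burnside engine: `E^p` is not central in a subgroup of finite index modulo the normal
closure of finitely many of its elements. -/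
def Stmt_Eng (p : ℕ) : Prop := ∀ S : Finset E, (∀ x ∈ S, x ∈ pw p) → ∀ U : Subgroup E, U.Normal → U.FiniteIndex →
  ∃ x : E, ∃ u ∈ U, x ^ p * u * (x ^ p)⁻¹ * u⁻¹ ∉ Subgroup.normalClosure (S : Set E)

/-- Hopf (injectivity of `H₂(E/R) → R/[R,E]`, `E` free). -/
def Stmt_Hopf : Prop := ∀ (R : Subgroup E) [R.Normal],
  (∃ F : Finset E, R = Subgroup.closure (F : Set E) ⊔ ⁅R, (⊤ : Subgroup E)⁆) →
  Module.Finite ℤ (groupHomology (Rep.trivial ℤ (E ⧸ R) ℤ) 2)

/-- Finite presentability does not depend on the generators. -/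
def Stmt_FP : Prop := ∀ (R : Subgroup E) [R.Normal],
  (∃ (n : ℕ) (f : FreeGroup (Fin n) →* E ⧸ R), Function.Surjective f ∧
    ∃ S : Finset (FreeGroup (Fin n)), f.ker = Subgroup.normalClosure (S : Set (FreeGroup (Fin n)))) →
  ∃ S : Finset E, R = Subgroup.normalClosure (S : Set E)

/-- The finite residual of `E/E^p`. -/
def Stmt_Res : Prop := ∀ p : ℕ, 0 < p → Stmt_Kos p → ∃ T : Subgroup E, T.Normal ∧ T.FiniteIndex ∧ pw p ≤ T ∧
  (∀ φ : E →* E, T ≤ T.comap φ) ∧ T = ⁅T, T⁆ ⊔ pw p

/-- The commutator computation: `[N,T]/[[N,T],E]` is finitely generated. -/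
def Stmt_Comm : Prop := ∀ (N T : Subgroup E) [N.Normal] [T.Normal], T.FiniteIndex → N ≤ T → T = ⁅T, T⁆ ⊔ N →
  ∃ F : Finset E, ⁅N, T⁆ = Subgroup.closure (F : Set E) ⊔ ⁅⁅N, T⁆, (⊤ : Subgroup E)⁆

/-- Fully invariant subgroups of `E` are verbal. -/
def Stmt_Verb : Prop := ∀ R : Subgroup E, (∀ φ : E →* E, R ≤ R.comap φ) → ∃ W : Set (FreeGroup ℕ),
  {x : E | ∃ w ∈ W, ∃ φ : FreeGroup ℕ →* E, φ w = x} = (R : Set E)

end Pool.Agent.SCH
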