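import Pool.Agent.SCH.Final
import Pool.Agent.KOS.All
import Pool.Agent.BURN.Stmts4

/-!
# MP_f313b9_al: S03526 from the Burnside engine (`Stmt_BurnF`) and Kostrikin's theorem
-/

namespace Pool.Agent.SCH

theorem eng_of_burnF (hB : Pool.Agent.BURN.Stmt_BurnF) {p : ℕ} (hp : Odd p) (hn : Pool.Agent.BURN.n0 ≤ p) :
    Stmt_Eng p := by
  intro S hS U hU hUf
  exact (hB (Fin 2) p hp hn (pw p) rfl).2 ⟨0, 1, by decide⟩ S hS U hU hUf

theorem main (hB : Pool.Agent.BURN.Stmt_BurnF) :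
    ¬ (∀ W : Set (FreeGroup ℕ),
      (¬ ∃ (n : ℕ) (f : FreeGroup (Fin n) →*
          (FreeGroup (Fin 2) ⧸ Subgroup.normalClosure
            {x : FreeGroup (Fin 2) | ∃ w ∈ W, ∃ φ : FreeGroup ℕ →* FreeGroup (Fin 2), φ w = x})),
          Function.Surjective f ∧
            ∃ S : Finset (FreeGroup (Fin n)),
              f.ker = Subgroup.normalClosure (S : Set (FreeGroup (Fin n)))) →
      ¬ Module.Finite ℤ
          (groupHomology
            (Rep.trivial ℤ
              (FreeGroup (Fin 2) ⧸ Subgroup.normalClosure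
                {x : FreeGroup (Fin 2) | ∃ w ∈ W, ∃ φ : FreeGroup ℕ →* FreeGroup (Fin 2), φ w = x})
              ℤ) 2)) := by
  obtain ⟨p, hpn, hp⟩ := Nat.exists_infinite_primes (max Pool.Agent.BURN.n0 5)
  have h5 : 5 ≤ p := (le_max_right _ _).trans hpn
  have hn : Pool.Agent.BURN.n0 ≤ p := (le_max_left _ _).trans hpn
  have hodd : Odd p := hp.odd_of_ne_two (by omega)
  exact reduction p hp.pos (Pool.Agent.KOS.kos_sch p hp h5) (eng_of_burnF hB hodd hn)

end Pool.Agent.SCH
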