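import Pool.Agent.SCH.Stmts

/-!
# MP_f313b9_al: `[N,T]/[[N,T],E]` is finitely generated
-/

open scoped commutatorElement

namespace Pool.Agent.SCH

namespace Comm

/-- three subgroups lemma modulo a normal subgroup -/
lemma three {G : Type*} [Group G] {A B C M : Subgroup G} [M.Normal] (h1 : ⁅⁅B, C⁆, A⁆ ≤ M)
    (h2 : ⁅⁅C, A⁆, B⁆ ≤ M) : ⁅⁅A, B⁆, C⁆ ≤ M := by
  have key : ∀ X : Subgroup G, X ≤ M ↔ X.map (QuotientGroup.mk' M) = ⊥ := by
    intro X
    rw [Subgroup.map_eq_bot_iff, QuotientGroup.ker_mk']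
  rw [key] at h1 h2 ⊢
  simp only [Subgroup.map_commutator] at h1 h2 ⊢
  exact Subgroup.commutator_commutator_eq_bot_of_rotate h1 h2

end Comm

open Comm in
theorem comm_proof : Stmt_Comm := by
  intro N T _ _ hTf hNT hT
  set N1 : Subgroup E := ⁅N, T⁆ with hN1
  set N2 : Subgroup E := ⁅N1, T⁆ with hN2
  -- `[T',N] ≤ N2`
  have h3 : ⁅⁅T, T⁆, N⁆ ≤ N2 := by
    refine three ?_ ?_
    · rw [Subgroup.commutator_comm T N]
    · exact le_rfl
  have h3' : ⁅N, ⁅T, T⁆⁆ ≤ N2 := by
    rw [Subgroup.commutator_comm]; exact h3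
  -- generators of `T`
  have hTfg : T.FG := (Group.fg_iff_subgroup_fg T).1 (Subgroup.fg_of_index_ne_zero T)
  obtain ⟨A, hA⟩ := hTfg
  have hdec : ∀ t ∈ T, ∃ c ∈ ⁅T, T⁆, ∃ n ∈ N, c * n = t := by
    intro t ht
    rw [hT] at ht
    exact Subgroup.mem_sup_of_normal_left.1 ht
  have hdec' : ∀ t : E, ∃ n : E, n ∈ N ∧ (t ∈ T → ∃ c ∈ ⁅T, T⁆, c * n = t) := by
    intro t
    by_cases ht : t ∈ T
    · obtain ⟨c, hc, n, hn, h⟩ := hdec t ht
      exact ⟨n, hn, fun _ => ⟨c, hc, h⟩⟩
    · exact ⟨1, N.one_mem, fun h => absurd h ht⟩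
  choose ν hνN hν using hdec'
  classical
  set B : Finset E := A.image ν with hB
  have hBN : ∀ b ∈ B, b ∈ N := by
    intro b hb
    obtain ⟨a, _, rfl⟩ := Finset.mem_image.1 hb
    exact hνN a
  have hTgen : T ≤ ⁅T, T⁆ ⊔ Subgroup.closure (B : Set E) := by
    conv_lhs => rw [← hA]
    rw [Subgroup.closure_le]
    intro a ha
    have haT : a ∈ T := by rw [← hA]; exact Subgroup.subset_closure ha
    obtain ⟨c, hc, h⟩ := hν a haT
    rw [← h]
    refine Subgroup.mul_mem_sup hc (Subgroup.subset_closure ?_)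
    exact Finset.mem_coe.2 (Finset.mem_image_of_mem ν ha)
  set F : Finset E := (B ×ˢ B).image fun x => ⁅x.1, x.2⁆ with hF
  set C : Subgroup E := Subgroup.closure (F : Set E) ⊔ N2 with hC
  have hFN1 : (F : Set E) ⊆ N1 := by
    intro x hx
    obtain ⟨⟨a, b⟩, hab, rfl⟩ := Finset.mem_image.1 (Finset.mem_coe.1 hx)
    rw [Finset.mem_product] at hab
    exact Subgroup.commutator_mem_commutator (hBN a hab.1) (hNT (hBN b hab.2))
  have hN2C : N2 ≤ C := le_sup_right
  -- conjugation by elements of `T`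
  have hconj : ∀ x ∈ N1, x ∈ C → ∀ t ∈ T, t * x * t⁻¹ ∈ C := by
    intro x hx hxC t ht
    have h1 : ⁅t, x⁆ ∈ N2 := by
      have h2 : ⁅t, x⁆ ∈ ⁅T, N1⁆ := Subgroup.commutator_mem_commutator ht hx
      rwa [Subgroup.commutator_comm] at h2
    have h2 : t * x * t⁻¹ = ⁅t, x⁆ * x := by
      rw [commutatorElement_def]; group
    rw [h2]
    exact C.mul_mem (hN2C h1) hxC
  have hTN : ∀ t ∈ T, ∀ n ∈ N, ⁅t, n⁆ ∈ N1 := by
    intro t ht n hn
    have h2 : ⁅t, n⁆ ∈ ⁅T, N⁆ := Subgroup.commutator_mem_commutator ht hn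
    rwa [Subgroup.commutator_comm] at h2
  -- first step
  have step1 : ∀ b ∈ B, ∀ t ∈ T, ⁅t, b⁆ ∈ C := by
    intro b hb
    let H : Subgroup E :=
      { carrier := {t | t ∈ T ∧ ⁅t, b⁆ ∈ C}
        mul_mem' := by
          rintro x y ⟨hx, hx'⟩ ⟨hy, hy'⟩
          refine ⟨T.mul_mem hx hy, ?_⟩
          have e : ⁅x * y, b⁆ = (x * ⁅y, b⁆ * x⁻¹) * ⁅x, b⁆ := by
            simp only [commutatorElement_def]; group
          rw [e]
          exact C.mul_mem (hconj _ (hTN y hy b (hBN b hb)) hy' x hx) hx'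
        one_mem' := ⟨T.one_mem, by rw [commutatorElement_one_left]; exact C.one_mem⟩
        inv_mem' := by
          rintro x ⟨hx, hx'⟩
          refine ⟨T.inv_mem hx, ?_⟩
          have e : ⁅x⁻¹, b⁆ = x⁻¹ * ⁅x, b⁆⁻¹ * x⁻¹⁻¹ := by
            simp only [commutatorElement_def]; group
          rw [e]
          exact hconj _ (N1.inv_mem (hTN x hx b (hBN b hb))) (C.inv_mem hx') _ (T.inv_mem hx) }
    have hH : T ≤ H := by
      refine hTgen.trans (sup_le ?_ ?_)
      · intro c hc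
        have hcT : c ∈ T := (Subgroup.commutator_le_left T T) hc
        exact ⟨hcT, hN2C (h3 (Subgroup.commutator_mem_commutator hc (hBN b hb)))⟩
      · rw [Subgroup.closure_le]
        intro a ha
        refine ⟨hNT (hBN a ha), ?_⟩
        refine Subgroup.mem_sup_left (Subgroup.subset_closure ?_)
        refine Finset.mem_coe.2 (Finset.mem_image.2 ⟨(a, b), ?_, rfl⟩)
        exact Finset.mem_product.2 ⟨ha, hb⟩
    exact fun t ht => (hH ht).2
  -- second step
  have step2 : ∀ a ∈ N, ∀ t ∈ T, ⁅a, t⁆ ∈ C := by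
    intro a ha
    let H : Subgroup E :=
      { carrier := {t | t ∈ T ∧ ⁅a, t⁆ ∈ C}
        mul_mem' := by
          rintro x y ⟨hx, hx'⟩ ⟨hy, hy'⟩
          refine ⟨T.mul_mem hx hy, ?_⟩
          have e : ⁅a, x * y⁆ = ⁅a, x⁆ * (x * ⁅a, y⁆ * x⁻¹) := by
            simp only [commutatorElement_def]; group
          rw [e]
          exact C.mul_mem hx' (hconj _ (Subgroup.commutator_mem_commutator ha hy) hy' x hx)
        one_mem' := ⟨T.one_mem, by rw [commutatorElement_one_right]; exact C.one_mem⟩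
        inv_mem' := by
          rintro x ⟨hx, hx'⟩
          refine ⟨T.inv_mem hx, ?_⟩
          have e : ⁅a, x⁻¹⁆ = x⁻¹ * ⁅a, x⁆⁻¹ * x⁻¹⁻¹ := by
            simp only [commutatorElement_def]; group
          rw [e]
          exact hconj _ (N1.inv_mem (Subgroup.commutator_mem_commutator ha hx)) (C.inv_mem hx') _
            (T.inv_mem hx) }
    have hH : T ≤ H := by
      refine hTgen.trans (sup_le ?_ ?_)
      · intro c hc
        have hcT : c ∈ T := (Subgroup.commutator_le_left T T) hc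
        exact ⟨hcT, hN2C (h3' (Subgroup.commutator_mem_commutator ha hc))⟩
      · rw [Subgroup.closure_le]
        intro b hb
        refine ⟨hNT (hBN b hb), ?_⟩
        have h1 := step1 b hb a (hNT ha)
        exact h1
    exact fun t ht => (hH ht).2
  refine ⟨F, le_antisymm ?_ ?_⟩
  · have h1 : N1 ≤ C := by
      rw [hN1, Subgroup.commutator_le]
      exact step2
    refine h1.trans (sup_le le_sup_left ?_)
    exact (Subgroup.commutator_mono le_rfl le_top).trans le_sup_right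
  · refine sup_le ((Subgroup.closure_le _).2 hFN1) ?_
    exact Subgroup.commutator_le_left _ _

end Pool.Agent.SCH
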