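import Pool.Agent.SCH.Stmts

namespace Pool.Agent.SCH

theorem fp_proof : Stmt_FP := by
  classical
  intro R hRn ⟨n, f, hf, S, hS⟩
  let π : E →* E ⧸ R := QuotientGroup.mk' R
  have hπ : Function.Surjective π := QuotientGroup.mk'_surjective R
  have h1 : ∀ i : Fin n, ∃ g : E, π g = f (FreeGroup.of i) := fun i => hπ _
  choose g hg using h1
  have h2 : ∀ j : Fin 2, ∃ w : FreeGroup (Fin n), f w = π (FreeGroup.of j) := fun j => hf _
  choose w hw using h2
  let σ : FreeGroup (Fin n) →* E := FreeGroup.lift g
  let τ : E →* FreeGroup (Fin n) := FreeGroup.lift w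
  have hσ : π.comp σ = f := by
    apply FreeGroup.ext_hom
    intro i
    simp [σ, hg]
  have hτ : f.comp τ = π := by
    apply FreeGroup.ext_hom
    intro i
    simp [τ, hw]
  refine ⟨S.image σ ∪ Finset.univ.image (fun j : Fin 2 => (FreeGroup.of j)⁻¹ * σ (τ (FreeGroup.of j))), ?_⟩
  set R' : Subgroup E := Subgroup.normalClosure
    ((S.image σ ∪ Finset.univ.image (fun j : Fin 2 => (FreeGroup.of j)⁻¹ * σ (τ (FreeGroup.of j))) :
      Finset E) : Set E) with hR'
  apply le_antisymm
  · intro x hx
    have hker : f.ker ≤ R'.comap σ := by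
      rw [hS]
      apply Subgroup.normalClosure_le_normal
      intro s hs
      apply Subgroup.subset_normalClosure
      simp only [Finset.coe_union, Finset.coe_image, Set.mem_union]
      exact Or.inl ⟨s, hs, rfl⟩
    have hx1 : τ x ∈ f.ker := by
      rw [MonoidHom.mem_ker, ← MonoidHom.comp_apply, hτ]
      exact (QuotientGroup.eq_one_iff x).2 hx
    have hx2 : σ (τ x) ∈ R' := hker hx1
    have hid : (QuotientGroup.mk' R').comp (σ.comp τ) = QuotientGroup.mk' R' := by
      apply FreeGroup.ext_hom
      intro j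
      have : (FreeGroup.of j : E)⁻¹ * σ (τ (FreeGroup.of j)) ∈ R' := by
        apply Subgroup.subset_normalClosure
        simp only [Finset.coe_union, Finset.coe_image, Set.mem_union]
        exact Or.inr ⟨j, by simp, rfl⟩
      simp only [MonoidHom.comp_apply, QuotientGroup.mk'_apply]
      exact (QuotientGroup.eq.2 this).symm
    have h3 := DFunLike.congr_fun hid x
    simp only [MonoidHom.comp_apply, QuotientGroup.mk'_apply] at h3
    rw [(QuotientGroup.eq_one_iff _).2 hx2] at h3
    exact (QuotientGroup.eq_one_iff x).1 h3.symm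
  · apply Subgroup.normalClosure_le_normal
    intro x hx
    simp only [Finset.coe_union, Finset.coe_image, Set.mem_union] at hx
    rcases hx with ⟨s, hs, rfl⟩ | ⟨j, -, rfl⟩
    · have h4 : s ∈ f.ker := by rw [hS]; exact Subgroup.subset_normalClosure hs
      rw [MonoidHom.mem_ker, ← hσ] at h4
      exact (QuotientGroup.eq_one_iff _).1 h4
    · have h5 : π ((FreeGroup.of j)⁻¹ * σ (τ (FreeGroup.of j))) = 1 := by
        rw [map_mul, map_inv, ← MonoidHom.comp_apply, ← MonoidHom.comp_apply, hσ, hτ]
        simp
      exact (QuotientGroup.eq_one_iff _).1 h5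

end Pool.Agent.SCH
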