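import Pool.Agent.SCH.Stmts

open scoped commutatorElement

namespace Pool.Agent.SCH

theorem res_proof : Stmt_Res := by
  classical
  intro p hp ⟨B, hB⟩
  -- the set of possible indices
  let A : Set ℕ := {m | ∃ K : Subgroup E, K.Normal ∧ (∀ x, x ^ p ∈ K) ∧ K.FiniteIndex ∧ K.index = m}
  have hA : A.Nonempty := ⟨_, ⊤, inferInstance, fun x => trivial, inferInstance, rfl⟩
  have hAb : BddAbove A := by
    refine ⟨B, ?_⟩
    rintro m ⟨K, h1, h2, h3, rfl⟩
    exact hB K h1 h2 h3
  obtain ⟨T, hTn, hTp, hTf, hTi⟩ := Nat.sSup_mem hA hAb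
  have hmin : ∀ K : Subgroup E, K.Normal → (∀ x, x ^ p ∈ K) → K.FiniteIndex → T ≤ K := by
    intro K hKn hKp hKf
    have h1 : (K ⊓ T).index ∈ A :=
      ⟨K ⊓ T, inferInstance, fun x => ⟨hKp x, hTp x⟩, inferInstance, rfl⟩
    have h2 : (K ⊓ T).index ≤ T.index := by
      rw [hTi]; exact le_csSup hAb h1
    have h3 : K ⊓ T = T := by
      apply le_antisymm inf_le_right
      have h4 := Subgroup.relIndex_mul_index (inf_le_right : K ⊓ T ≤ T)
      have hT0 : 0 < T.index := Nat.pos_of_ne_zero hTf.index_ne_zero
      have hK0 : (K ⊓ T).relIndex T ≠ 0 := by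
        intro h0
        rw [h0, zero_mul] at h4
        exact (inferInstance : (K ⊓ T).FiniteIndex).index_ne_zero h4.symm
      have h5 : (K ⊓ T).relIndex T = 1 := by
        have h6 : (K ⊓ T).relIndex T * T.index ≤ 1 * T.index := by rw [h4]; simpa using h2
        have h7 := Nat.le_of_mul_le_mul_right h6 hT0
        omega
      exact Subgroup.relIndex_eq_one.1 h5
    rw [← h3]; exact inf_le_left
  have hpw : pw p ≤ T := by
    apply Subgroup.normalClosure_le_normal
    rintro x ⟨y, rfl⟩
    exact hTp y
  refine ⟨T, hTn, hTf, hpw, ?_, ?_⟩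
  · intro φ
    have hfin : (T.comap φ).FiniteIndex := by
      refine ⟨?_⟩
      rw [Subgroup.index_comap]
      intro h0
      exact hTf.index_ne_zero (Subgroup.index_eq_zero_of_relIndex_eq_zero h0)
    exact hmin _ inferInstance (fun x => by
      rw [Subgroup.mem_comap, map_pow]; exact hTp _) hfin
  · have hpn : (pw p).Normal := Subgroup.normalClosure_normal
    have hKn : (⁅T, T⁆ ⊔ pw p).Normal := inferInstance
    have hKle : ⁅T, T⁆ ⊔ pw p ≤ T := sup_le (Subgroup.commutator_le_self T) hpw
    apply le_antisymm _ hKle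
    apply hmin _ hKn
    · intro x
      exact Subgroup.mem_sup_right (Subgroup.subset_normalClosure ⟨x, rfl⟩)
    · -- finite index
      have hTfg : Group.FG T := inferInstance
      let K' : Subgroup T := (⁅T, T⁆ ⊔ pw p).subgroupOf T
      have hK'n : K'.Normal := inferInstance
      have hcomm : ∀ a b : T ⧸ K', a * b = b * a := by
        intro a b
        induction a using QuotientGroup.induction_on with
        | H a =>
        induction b using QuotientGroup.induction_on with
        | H b =>
        rw [← QuotientGroup.mk_mul, ← QuotientGroup.mk_mul, QuotientGroup.eq]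
        show ((a * b)⁻¹ * (b * a) : T) ∈ K'
        rw [Subgroup.mem_subgroupOf]
        apply Subgroup.mem_sup_left
        have : (((a * b)⁻¹ * (b * a) : T) : E) = ⁅(b : E)⁻¹, (a : E)⁻¹⁆ := by
          simp [commutatorElement_def, mul_assoc]
        rw [this]
        exact Subgroup.commutator_mem_commutator (T.inv_mem b.2) (T.inv_mem a.2)
      let _ : CommGroup (T ⧸ K') := { (inferInstance : Group (T ⧸ K')) with mul_comm := hcomm }
      have hfgq : Group.FG (T ⧸ K') := inferInstance
      have htor : IsMulTorsion (T ⧸ K') := by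
        intro a
        induction a using QuotientGroup.induction_on with
        | H a =>
        rw [isOfFinOrder_iff_pow_eq_one]
        refine ⟨p, hp, ?_⟩
        rw [← QuotientGroup.mk_pow, QuotientGroup.eq_one_iff, Subgroup.mem_subgroupOf]
        exact Subgroup.mem_sup_right (Subgroup.subset_normalClosure ⟨(a : E), by simp⟩)
      have hfin : Finite (T ⧸ K') := CommGroup.finite_of_fg_isMulTorsion _ htor
      have h1 : (⁅T, T⁆ ⊔ pw p).relIndex T ≠ 0 := by
        have : K'.index ≠ 0 := Subgroup.index_ne_zero_of_finite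
        exact this
      refine ⟨?_⟩
      rw [← Subgroup.relIndex_mul_index hKle]
      exact mul_ne_zero h1 hTf.index_ne_zero

end Pool.Agent.SCH
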