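import Pool.Agent.SCH.Stmts

namespace Pool.Agent.SCH

theorem verb_proof : Stmt_Verb := by
  intro R hR
  refine ⟨{w | ∃ r ∈ R, w = FreeGroup.map (fun i : Fin 2 => (i : ℕ)) r}, ?_⟩
  ext x
  constructor
  · rintro ⟨w, ⟨r, hr, rfl⟩, φ, rfl⟩
    exact hR (φ.comp (FreeGroup.map (fun i : Fin 2 => (i : ℕ)))) hr
  · intro hx
    refine ⟨_, ⟨x, hx, rfl⟩,
      FreeGroup.lift (fun n : ℕ => if h : n < 2 then FreeGroup.of (⟨n, h⟩ : Fin 2) else 1), ?_⟩
    have : (FreeGroup.lift (fun n : ℕ => if h : n < 2 then FreeGroup.of (⟨n, h⟩ : Fin 2) else 1)).comp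
        (FreeGroup.map (fun i : Fin 2 => (i : ℕ))) = MonoidHom.id E := by
      apply FreeGroup.ext_hom
      intro i
      have hi : (i : ℕ) < 2 := i.2
      rw [MonoidHom.comp_apply, FreeGroup.map.of, FreeGroup.lift_apply_of, dif_pos hi]
      rfl
    exact DFunLike.congr_fun this x

end Pool.Agent.SCH
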