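import Pool.Agent.SCH.Hopf
import Pool.Agent.SCH.Comm
import Pool.Agent.SCH.FP
import Pool.Agent.SCH.Res
import Pool.Agent.SCH.Verb

/-!
# MP_f313b9_al: the reduction of S03526 to Kostrikin's theorem and the Burnside engine
-/

namespace Pool.Agent.SCH

/-- `[N,T]` is fully invariant if `N`, `T` are. -/
lemma comm_inv {G : Type*} [Group G] {N T : Subgroup G} {φ : G →* G} (hN : N ≤ N.comap φ) (hT : T ≤ T.comap φ) :
    ⁅N, T⁆ ≤ (⁅N, T⁆ : Subgroup G).comap φ := by
  rw [← Subgroup.map_le_iff_le_comap, Subgroup.map_commutator]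
  exact Subgroup.commutator_mono (Subgroup.map_le_iff_le_comap.2 hN) (Subgroup.map_le_iff_le_comap.2 hT)

lemma pw_inv (p : ℕ) (φ : E →* E) : pw p ≤ (pw p).comap φ := by
  have hn : (pw p).Normal := Subgroup.normalClosure_normal
  refine Subgroup.normalClosure_le_normal ?_
  rintro x ⟨y, rfl⟩
  show φ (y ^ p) ∈ pw p
  rw [map_pow]
  exact Subgroup.subset_normalClosure ⟨φ y, rfl⟩

theorem reduction (p : ℕ) (hp : 0 < p) (hK : Stmt_Kos p) (hE : Stmt_Eng p) :
    ¬ (∀ W : Set (FreeGroup ℕ),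
      (¬ ∃ (n : ℕ) (f : FreeGroup (Fin n) →*
          (FreeGroup (Fin 2) ⧸ Subgroup.normalClosure
            {x : FreeGroup (Fin 2) | ∃ w ∈ W, ∃ φ : FreeGroup ℕ →* FreeGroup (Fin 2), φ w = x})),
          Function.Surjective f ∧
            ∃ S : Finset (FreeGroup (Fin n)),
              f.ker = Subgroup.normalClosure (S : Set (FreeGroup (Fin n)))) →
      ¬ Module.Finite ℤ
          (groupHomology
            (Rep.trivial ℤ
              (FreeGroup (Fin 2) ⧸ Subgroup.normalClosure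
                {x : FreeGroup (Fin 2) | ∃ w ∈ W, ∃ φ : FreeGroup ℕ →* FreeGroup (Fin 2), φ w = x})
              ℤ) 2)) := by
  obtain ⟨T, hTn, hTf, hNT, hTi, hTT⟩ := res_proof p hp hK
  have hNn : (pw p).Normal := Subgroup.normalClosure_normal
  set R : Subgroup E := ⁅pw p, T⁆ with hR
  have hRn : R.Normal := inferInstance
  obtain ⟨W, hW⟩ := verb_proof R (fun φ => comm_inv (pw_inv p φ) (hTi φ))
  have hWR : Subgroup.normalClosure {x : FreeGroup (Fin 2) | ∃ w ∈ W, ∃ φ : FreeGroup ℕ →* FreeGroup (Fin 2), φ w = x}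
      = R := by
    rw [hW]
    exact Subgroup.normalClosure_eq_self R
  intro h
  refine h W ?_ ?_
  · intro hfp
    obtain ⟨S, hS⟩ := fp_proof _ hfp
    rw [hWR] at hS
    have hRN : R ≤ pw p := Subgroup.commutator_le_left _ _
    obtain ⟨x, u, hu, hne⟩ := hE S (fun x hx => hRN (by
      rw [hS]; exact Subgroup.subset_normalClosure (Finset.mem_coe.2 hx))) T hTn hTf
    refine hne ?_
    rw [← hS, hR]
    exact Subgroup.commutator_mem_commutator (Subgroup.subset_normalClosure ⟨x, rfl⟩) hu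
  · refine hopf_proof _ ?_
    rw [hWR]
    exact comm_proof (pw p) T hTf hNT hTT

end Pool.Agent.SCH
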