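import Pool.Agent.SCH.Stmts

/-!
# MP_f313b9_al: the injection `H₂(E/R) → R/[R,E]` (central extension with the universal cocycle)
-/

open Finsupp

namespace Pool.Agent.SCH

namespace Hopf

section
variable {A Q : Type} [AddCommGroup A] [Group Q]

/-- The set underlying the central extension with cocycle `c`. -/
@[ext] structure Ext (c : Q → Q → A) (hc : ∀ g h k, c g h + c (g * h) k = c h k + c g (h * k)) where
  /-- central part -/
  a : A
  /-- quotient part -/
  q : Q

variable {c : Q → Q → A} {hc : ∀ g h k, c g h + c (g * h) k = c h k + c g (h * k)}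

include hc in
lemma c_one_left (g : Q) : c 1 g = c 1 1 := by
  have := hc 1 1 g
  simp only [one_mul] at this
  exact (add_right_cancel this).symm

include hc in
lemma c_one_right (g : Q) : c g 1 = c 1 1 := by
  have := hc g 1 1
  simp only [mul_one] at this
  exact add_right_cancel this

instance : Mul (Ext c hc) := ⟨fun x y => ⟨x.a + y.a + c x.q y.q, x.q * y.q⟩⟩
instance : One (Ext c hc) := ⟨⟨-c 1 1, 1⟩⟩
instance : Inv (Ext c hc) := ⟨fun x => ⟨-c 1 1 - x.a - c x.q⁻¹ x.q, x.q⁻¹⟩⟩

@[simp] lemma mul_a (x y : Ext c hc) : (x * y).a = x.a + y.a + c x.q y.q := rfl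
@[simp] lemma mul_q (x y : Ext c hc) : (x * y).q = x.q * y.q := rfl
@[simp] lemma one_a : (1 : Ext c hc).a = -c 1 1 := rfl
@[simp] lemma one_q : (1 : Ext c hc).q = 1 := rfl
@[simp] lemma inv_a (x : Ext c hc) : x⁻¹.a = -c 1 1 - x.a - c x.q⁻¹ x.q := rfl
@[simp] lemma inv_q (x : Ext c hc) : x⁻¹.q = x.q⁻¹ := rfl

instance : Group (Ext c hc) := Group.ofLeftAxioms
  (by
    intro x y z
    ext
    · simp only [mul_a, mul_q]
      have := hc x.q y.q z.q
      calc x.a + y.a + c x.q y.q + z.a + c (x.q * y.q) z.q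
          = x.a + y.a + z.a + (c x.q y.q + c (x.q * y.q) z.q) := by abel
        _ = x.a + y.a + z.a + (c y.q z.q + c x.q (y.q * z.q)) := by rw [this]
        _ = _ := by abel
    · simp [mul_assoc])
  (by
    intro x
    ext
    · simp only [mul_a, one_a, one_q]
      rw [c_one_left (hc := hc) x.q]
      abel
    · simp)
  (by
    intro x
    ext
    · simp only [mul_a, inv_a, inv_q, one_a]
      abel
    · simp)

/-- projection -/
def proj : Ext c hc →* Q where
  toFun := Ext.q
  map_one' := rfl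
  map_mul' _ _ := rfl

lemma central {x : Ext c hc} (hx : x.q = 1) (y : Ext c hc) : x * y = y * x := by
  ext
  · simp only [mul_a, hx]
    rw [c_one_left (hc := hc) y.q, c_one_right (hc := hc) y.q]
    abel
  · simp [hx]

end

section
variable (R : Subgroup E) [R.Normal]

/-- the quotient group -/
abbrev Qt : Type := E ⧸ R

/-- the trivial representation -/
noncomputable abbrev triv : Rep ℤ (Qt R) := Rep.trivial ℤ (Qt R) ℤ

/-- chains modulo boundaries -/
abbrev CB : Type := (Qt R × Qt R →₀ ℤ) ⧸ (groupHomology.boundaries₂ (triv R) : Submodule ℤ (Qt R × Qt R →₀ ℤ))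

/-- the class of a chain -/
noncomputable def mk : (Qt R × Qt R →₀ ℤ) →ₗ[ℤ] CB R :=
  Submodule.mkQ (groupHomology.boundaries₂ (triv R) : Submodule ℤ (Qt R × Qt R →₀ ℤ))

/-- the universal cocycle -/
noncomputable def uc (g h : Qt R) : CB R := mk R (single (g, h) 1)

lemma uc_cocycle (g h k : Qt R) : uc R g h + uc R (g * h) k = uc R h k + uc R g (h * k) := by
  have h1 : groupHomology.d₃₂ (triv R) (single (g, h, k) (1 : ℤ)) ∈ groupHomology.boundaries₂ (triv R) :=
    ⟨_, rfl⟩
  have h2 : mk R (groupHomology.d₃₂ (triv R) (single (g, h, k) (1 : ℤ))) = 0 :=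
    (Submodule.Quotient.mk_eq_zero _).2 h1
  rw [groupHomology.d₃₂_single] at h2
  have h3 : mk R (single (h, k) (1 : ℤ) - single (g * h, k) (1 : ℤ) + single (g, h * k) (1 : ℤ)
      - single (g, h) (1 : ℤ)) = 0 := h2
  rw [map_sub, map_add, map_sub] at h3
  have h4 : uc R h k - uc R (g * h) k + uc R g (h * k) - uc R g h = 0 := h3
  have h5 : uc R h k + uc R g (h * k) = uc R g h + uc R (g * h) k := by
    rw [sub_eq_zero] at h4
    rw [← h4]
    abel
  exact h5.symm

/-- the extension -/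
abbrev G : Type := Ext (uc R) (uc_cocycle R)

/-- the lift of the free group -/
noncomputable def φ : E →* G R := FreeGroup.lift fun i => ⟨0, (QuotientGroup.mk (FreeGroup.of i) : Qt R)⟩

lemma φ_q (x : E) : (φ R x).q = QuotientGroup.mk x := by
  have : (proj (c := uc R) (hc := uc_cocycle R)).comp (φ R) = QuotientGroup.mk' R := by
    ext i
    simp [φ, proj]
  exact DFunLike.congr_fun this x

lemma φ_q_one {r : E} (hr : r ∈ R) : (φ R r).q = 1 := by
  rw [φ_q]
  exact (QuotientGroup.eq_one_iff r).2 hr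

/-- the transgression -/
noncomputable def θ (r : E) : CB R := (φ R r).a + uc R 1 1

lemma θ_mul {r s : E} (hr : r ∈ R) (hs : s ∈ R) : θ R (r * s) = θ R r + θ R s := by
  simp only [θ, map_mul, mul_a, φ_q_one R hr, φ_q_one R hs]
  abel

lemma θ_one : θ R 1 = 0 := by
  simp [θ]

lemma θ_inv {r : E} (hr : r ∈ R) : θ R r⁻¹ = - θ R r := by
  have h := θ_mul R hr (R.inv_mem hr)
  rw [mul_inv_cancel, θ_one] at h
  exact (neg_eq_of_add_eq_zero_right h.symm).symm

lemma θ_comm {r : E} (hr : r ∈ R) (x : E) : θ R (r * x * r⁻¹ * x⁻¹) = 0 := by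
  have h : φ R (r * x * r⁻¹ * x⁻¹) = 1 := by
    simp only [map_mul, map_inv]
    rw [central (φ_q_one R hr) (φ R x)]
    group
  simp [θ, h]

/-- The image of `θ` is generated by the image of a generating set modulo `[R,E]`. -/
lemma θ_mem {F : Set E} (hF : R = Subgroup.closure F ⊔ ⁅R, (⊤ : Subgroup E)⁆) {r : E} (hr : r ∈ R) :
    θ R r ∈ Submodule.span ℤ (θ R '' F) := by
  -- the subgroup of elements of `R` with this property
  let H : Subgroup E :=
    { carrier := {r | r ∈ R ∧ θ R r ∈ Submodule.span ℤ (θ R '' F)}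
      mul_mem' := by
        rintro a b ⟨ha, ha'⟩ ⟨hb, hb'⟩
        refine ⟨R.mul_mem ha hb, ?_⟩
        rw [θ_mul R ha hb]
        exact Submodule.add_mem _ ha' hb'
      one_mem' := ⟨R.one_mem, by rw [θ_one]; exact Submodule.zero_mem _⟩
      inv_mem' := by
        rintro a ⟨ha, ha'⟩
        refine ⟨R.inv_mem ha, ?_⟩
        rw [θ_inv R ha]
        exact Submodule.neg_mem _ ha' }
  have hFR : F ⊆ R := by
    intro x hx
    have h1 : x ∈ Subgroup.closure F ⊔ ⁅R, (⊤ : Subgroup E)⁆ :=
      Subgroup.mem_sup_left (Subgroup.subset_closure hx)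
    rw [← hF] at h1
    exact h1
  have h1 : Subgroup.closure F ≤ H := by
    rw [Subgroup.closure_le]
    intro x hx
    exact ⟨hFR hx, Submodule.subset_span ⟨x, hx, rfl⟩⟩
  have h2 : ⁅R, (⊤ : Subgroup E)⁆ ≤ H := by
    rw [Subgroup.commutator_le]
    intro r hr x _
    refine ⟨?_, ?_⟩
    · have h3 : ⁅R, (⊤ : Subgroup E)⁆ ≤ R := Subgroup.commutator_le_left _ _
      exact h3 (Subgroup.commutator_mem_commutator hr (Subgroup.mem_top x))
    · have h4 := θ_comm R hr x
      have h5 : θ R (r * x * r⁻¹ * x⁻¹) ∈ Submodule.span ℤ (θ R '' F) := by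
        rw [h4]; exact Submodule.zero_mem _
      exact h5
  have h3 : R ≤ H := by
    conv_lhs => rw [hF]
    exact sup_le h1 h2
  exact (h3 hr).2

/-- section of the quotient map -/
noncomputable def s (g : Qt R) : E := g.out

omit [R.Normal] in
lemma mk_s (g : Qt R) : (QuotientGroup.mk (s R g) : Qt R) = g := Quotient.out_eq _

/-- factor set -/
noncomputable def fs (g h : Qt R) : E := s R g * s R h * (s R (g * h))⁻¹

lemma fs_mem (g h : Qt R) : fs R g h ∈ R := by
  rw [← QuotientGroup.eq_one_iff]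
  simp only [fs, QuotientGroup.mk_mul, QuotientGroup.mk_inv, mk_s]
  group

lemma uc_eq (g h : Qt R) : uc R g h = θ R (fs R g h) -
    ((φ R (s R h)).a - (φ R (s R (g * h))).a + (φ R (s R g)).a) := by
  have h1 : φ R (fs R g h) * φ R (s R (g * h)) = φ R (s R g) * φ R (s R h) := by
    rw [← map_mul, ← map_mul, fs, inv_mul_cancel_right]
  have h2 := congrArg Ext.a h1
  simp only [mul_a, φ_q, mk_s] at h2
  have h3 : (QuotientGroup.mk (fs R g h) : Qt R) = 1 := (QuotientGroup.eq_one_iff _).2 (fs_mem R g h)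
  rw [h3, c_one_left (hc := uc_cocycle R)] at h2
  have h4 : θ R (fs R g h) = (φ R (fs R g h)).a + uc R 1 1 := rfl
  rw [h4]
  have h5 : (φ R (fs R g h)).a + uc R 1 1 =
      (φ R (s R g)).a + (φ R (s R h)).a + uc R g h - (φ R (s R (g * h))).a := by
    rw [← h2]; abel
  rw [h5]
  abel

lemma mk_mem {F : Set E} (hF : R = Subgroup.closure F ⊔ ⁅R, (⊤ : Subgroup E)⁆)
    (z : groupHomology.cycles₂ (triv R)) : mk R z.1 ∈ Submodule.span ℤ (θ R '' F) := by
  let T : (Qt R × Qt R →₀ ℤ) →ₗ[ℤ] CB R :=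
    Finsupp.lift (CB R) ℤ (Qt R × Qt R) fun g => θ R (fs R g.1 g.2)
  let α : (Qt R →₀ ℤ) →ₗ[ℤ] CB R := Finsupp.lift (CB R) ℤ (Qt R) fun g => (φ R (s R g)).a
  let d : (Qt R × Qt R →₀ ℤ) →ₗ[ℤ] (Qt R →₀ ℤ) := (groupHomology.d₂₁ (triv R)).hom
  have hT : ∀ g, T (single g 1) = θ R (fs R g.1 g.2) := by
    intro g
    show Finsupp.lift (CB R) ℤ (Qt R × Qt R) _ (single g 1) = _
    rw [Finsupp.lift_apply]
    exact (Finsupp.sum_single_index (by rw [zero_smul])).trans (one_smul _ _)
  have hα : ∀ g, α (single g 1) = (φ R (s R g)).a := by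
    intro g
    show Finsupp.lift (CB R) ℤ (Qt R) _ (single g 1) = _
    rw [Finsupp.lift_apply]
    exact (Finsupp.sum_single_index (by rw [zero_smul])).trans (one_smul _ _)
  have key : ∀ g : Qt R × Qt R, mk R (single g 1) = T (single g 1) - α (d (single g 1)) := by
    intro g
    have h1 := groupHomology.d₂₁_single (A := triv R) g (1 : ℤ)
    have h1' : d (single g (1 : ℤ)) = single g.2 (1 : ℤ) - single (g.1 * g.2) (1 : ℤ) + single g.1 (1 : ℤ) :=
      h1
    rw [h1', map_add, map_sub, hT, hα, hα, hα]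
    exact uc_eq R g.1 g.2
  have key2 : mk R = T - α ∘ₗ d := by
    refine Finsupp.lhom_ext' fun g => LinearMap.ext_ring ?_
    exact key g
  have hz : d z.1 = 0 := z.2
  have h3 : mk R z.1 = T z.1 := by
    rw [key2]
    show T z.1 - α (d z.1) = T z.1
    rw [hz, map_zero, sub_zero]
  rw [h3]
  show Finsupp.lift (CB R) ℤ (Qt R × Qt R) _ z.1 ∈ _
  rw [Finsupp.lift_apply]
  refine Submodule.sum_mem _ fun g _ => Submodule.smul_mem _ _ ?_
  exact θ_mem R hF (fs_mem R _ _)

end

end Hopf

open Hopf in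
theorem hopf_proof : Stmt_Hopf := by
  intro R _ ⟨F, hF⟩
  let Z := groupHomology.cycles₂ (triv R)
  let m : Z →ₗ[ℤ] CB R := (mk R).comp (Submodule.subtype _)
  let π : Z →ₗ[ℤ] groupHomology (triv R) 2 := (groupHomology.H2π (triv R)).hom
  have hπ : Function.Surjective π := (ModuleCat.epi_iff_surjective _).1 inferInstance
  have hker : LinearMap.ker m = LinearMap.ker π := by
    ext z
    rw [LinearMap.mem_ker, LinearMap.mem_ker]
    have h1 : π z = 0 ↔ z.1 ∈ groupHomology.boundaries₂ (triv R) := groupHomology.H2π_eq_zero_iff z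
    rw [h1]
    exact Submodule.Quotient.mk_eq_zero _
  have hfg : (LinearMap.range m).FG := by
    refine Submodule.FG.of_le (T := Submodule.span ℤ (θ R '' (F : Set E))) ?_ ?_
    · exact Submodule.fg_span (F.finite_toSet.image _)
    · rintro _ ⟨z, rfl⟩
      exact mk_mem R hF z
  have hfin : Module.Finite ℤ (LinearMap.range m) := Module.Finite.iff_fg.2 hfg
  have e1 : (Z ⧸ LinearMap.ker m) ≃ₗ[ℤ] LinearMap.range m := m.quotKerEquivRange
  have e2 : (Z ⧸ LinearMap.ker π) ≃ₗ[ℤ] groupHomology (triv R) 2 := π.quotKerEquivOfSurjective hπ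
  rw [hker] at e1
  exact Module.Finite.equiv (e1.symm.trans e2)

end Pool.Agent.SCH
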